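import Pool.Agent.H929.BG.Stm

/-!
# BG: the parts `PE` (two parts, nodal step, last step), emptiness
-/

set_option autoImplicit false

namespace Pool.Agent.H788.BG

open Finset Pool.Agent.TH3.IR Pool.Agent.Y55.Col Pool.Agent.H929.BW Pool.Agent.H929.BG

theorem t_PEadd : S_PEadd := by
  rintro n M M' a b H ha hb ⟨ι, _, w, N, hw, hN, hM⟩ ⟨κ, _, v, N', hv, hN', hM'⟩
  refine ⟨ι ⊕ κ, inferInstance, Sum.elim w v, Sum.elim N N', ?_, ?_, ?_⟩
  · exact (Pool.Agent.H980.BW.t_PIECEE Pool.Agent.H349.BW.t_CUTE) ι κ n w v a b H ha hb hw hv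
  · rintro (i | i)
    · exact hN i
    · exact hN' i
  · rw [Fintype.sum_sum_type]
    exact add_le_add hM hM'

theorem t_PEnode : S_PEnode := by
  rintro n M b H hb ⟨ι, _, w, N, hw, hN, hM⟩
  exact ⟨ι, inferInstance, w, N, t_NODE ι n w b H 2 le_rfl hb hw, hN, hM⟩

/-- collisions of arbitrary multisets -/
theorem collide {ι : Type} [Fintype ι] (E D : ℕ) (w : ι → ℕ) (N : ι → Multiset ℕ)
    (h : Emp E D ((univ : Finset ι).val.map w)) (hN : ∀ i, Emp E (w i) (N i)) :
    Emp E D (∑ i, N i) := by
  classical
  have key : ∀ A : Finset ι, Emp E D (∑ i ∈ A, N i + ((univ : Finset ι) \ A).val.map w) := by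
    intro A
    induction A using Finset.induction_on with
    | empty => simpa using h
    | insert a A ha ih =>
      have h1 : ((univ : Finset ι) \ A).val.map w =
          w a ::ₘ ((univ : Finset ι) \ insert a A).val.map w := by
        have h2 : (univ : Finset ι) \ A = insert a ((univ : Finset ι) \ insert a A) := by
          ext x
          simp only [mem_sdiff, mem_univ, true_and, mem_insert, not_or]
          by_cases hx : x = a
          · simp [hx, ha]
          · simp [hx]
        rw [h2, insert_val_of_notMem (by simp), Multiset.map_cons]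
      rw [h1, Multiset.add_cons] at ih
      have h3 := ih.collision (hN a)
      rw [sum_insert ha, add_assoc]
      exact h3
  have h4 := key univ
  simpa using h4

theorem add_points {E D : ℕ} {M : Multiset ℕ} (h : Emp E D M) (R : Multiset ℕ) :
    Emp E D (M + R) := by
  induction R using Multiset.induction_on with
  | empty => simpa using h
  | cons b R ih =>
    rw [Multiset.add_cons]
    exact ih.point b

theorem t_PEfin : S_PEfin := by
  rintro n M d hn ⟨ι, _, w, N, hw, hN, hM⟩
  have h1 := t_STARTE ι n w d hn hw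
  have h2 := Pool.Agent.H738.BW.t_CONVE ι n d w h1
  have h3 := collide (n + 1) (d + 1) w N h2 hN
  obtain ⟨R, rfl⟩ := Multiset.le_iff_exists_add.1 hM
  exact add_points h3 R

end Pool.Agent.H788.BG
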